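import Mathlib

open CategoryTheory CategoryTheory.Limits

namespace Pool.Agent.Results.MP_2a1499_al.CommutativeSquareNotMonomial

universe u v w t

set_option linter.constructorNameAsVariable false

section Defs

variable (k : Type t) [Field k] {C : Type u} [Category.{v} C] [Abelian C] [Linear k C]
  [HasExt.{w} C] {ι : Type}

/-- Exceptional object: indecomposable, with `Ext¹(E, E) = 0`. -/
def IsExceptional (E : C) : Prop :=
  Indecomposable E ∧ ∀ x : Abelian.Ext E E 1, x = 0

/-- A finite family of exceptional objects is an exceptional collection if it has an ordering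
in which there are no morphisms and no extensions from later members to earlier ones. -/
def IsExceptionalCollection [Fintype ι] (X : ι → C) : Prop :=
  (∀ i, IsExceptional (X i)) ∧
    ∃ r : ι ≃ Fin (Fintype.card ι), ∀ i j : ι, r j < r i →
      (∀ f : X i ⟶ X j, f = 0) ∧ ∀ x : Abelian.Ext (X i) (X j) 1, x = 0

/-- The radical part of `Ext^d(X i, X j)`: for `d = 0` the radical morphisms, i.e. the
morphisms `f` such that `1 - f g` is invertible for every `g` in the other direction; for
`d > 0` everything. -/
noncomputable def rad (X : ι → C) (i j : ι) : (d : ℕ) → Submodule k (Abelian.Ext (X i) (X j) d)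
  | 0 => Submodule.span k {x | ∃ f : X i ⟶ X j,
      (∀ g : X j ⟶ X i, IsIso (𝟙 (X i) - f ≫ g)) ∧ x = Abelian.Ext.mk₀ f}
  | _ + 1 => ⊤

/-- The part of `Ext^d(X i, X j)` spanned by the products of two radical elements. -/
noncomputable def rad2 (X : ι → C) (i j : ι) (d : ℕ) : Submodule k (Abelian.Ext (X i) (X j) d) :=
  Submodule.span k {z | ∃ (l : ι) (p q : ℕ) (h : p + q = d) (x : Abelian.Ext (X i) (X l) p)
    (y : Abelian.Ext (X l) (X j) q), x ∈ rad k X i l p ∧ y ∈ rad k X l j q ∧ z = x.comp y h}

/-- The arrows of a Hom-Ext quiver of the family `X`, with the elements of `Hom` (`d = 0`) and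
`Ext¹` (`d = 1`) which they stand for: those attached to the arrows `i → j` of degree `d` are
radical and form a basis modulo the products of two radical elements. -/
structure HomExtQuiver (X : ι → C) where
  Arr : ι → ι → Fin 2 → Type w
  val : ∀ {i j : ι} {d : Fin 2}, Arr i j d → Abelian.Ext (X i) (X j) (d : ℕ)
  mem : ∀ {i j : ι} {d : Fin 2} (a : Arr i j d), val a ∈ rad k X i j d
  indep : ∀ (i j : ι) (d : Fin 2),
    LinearIndependent k (fun a : Arr i j d => (rad2 k X i j d).mkQ (val a))
  span_le : ∀ (i j : ι) (d : Fin 2), rad k X i j d ≤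
    rad2 k X i j d ⊔ Submodule.span k (Set.range (fun a : Arr i j d => val a))

variable {k} {X : ι → C}

namespace HomExtQuiver

/-- The vertices of the Hom-Ext quiver are the members of the family. -/
def Vert (_H : HomExtQuiver k X) : Type := ι

/-- The Hom-Ext quiver `Q^χ`. -/
instance (H : HomExtQuiver k X) : Quiver H.Vert := ⟨fun i j => Σ d : Fin 2, H.Arr i j d⟩

/-- The degree of a path: its number of extension arrows. -/
def deg (H : HomExtQuiver k X) {i : H.Vert} : ∀ {j : H.Vert}, Quiver.Path i j → ℕ
  | _, .nil => 0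
  | _, .cons p a => deg H p + (a.1 : ℕ)

/-- The value of a path: the (Yoneda) product of the values of its arrows. -/
noncomputable def eval (H : HomExtQuiver k X) {i : H.Vert} :
    ∀ {j : H.Vert} (p : Quiver.Path i j), Abelian.Ext (X i) (X j) (H.deg p)
  | _, .nil => Abelian.Ext.mk₀ (𝟙 (X i))
  | _, .cons p a => (eval H p).comp (H.val a.2) rfl

/-- The evaluation of linear combinations of paths `i → j`. -/
noncomputable def evalLin (H : HomExtQuiver k X) (i j : H.Vert) :
    (Quiver.Path i j →₀ k) →ₗ[k] DirectSum ℕ (fun n => Abelian.Ext (X i) (X j) n) :=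
  Finsupp.linearCombination k (fun p => DirectSum.lof k ℕ
    (fun n => Abelian.Ext (X i) (X j) n) (H.deg p) (H.eval p))

/-- The component at `(i, j)` of the ideal `R` of relations: the linear combinations of
paths `i → j` whose value is zero. -/
noncomputable def relIdeal (H : HomExtQuiver k X) (i j : H.Vert) :
    Submodule k (Quiver.Path i j →₀ k) :=
  LinearMap.ker (H.evalLin i j)

/-- The component at `(i, j)` of the ideal of the path category generated by a set of paths. -/
noncomputable def pathIdeal (H : HomExtQuiver k X) (S : ∀ i j : H.Vert, Set (Quiver.Path i j))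
    (i j : H.Vert) : Submodule k (Quiver.Path i j →₀ k) :=
  Submodule.span k {f | ∃ (a b : H.Vert) (p : Quiver.Path i a) (q : Quiver.Path a b)
    (r : Quiver.Path b j), q ∈ S a b ∧ f = Finsupp.single ((p.comp q).comp r) 1}

/-- The ideal `R` of relations is generated by monomial relations, i.e. by paths of length
at least two. -/
def GeneratedByMonomials (H : HomExtQuiver k X) : Prop :=
  ∃ S : ∀ i j : H.Vert, Set (Quiver.Path i j),
    (∀ i j, ∀ p ∈ S i j, 2 ≤ p.length) ∧ ∀ i j, H.relIdeal i j = H.pathIdeal S i j

end HomExtQuiver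

end Defs

section General

variable {k : Type t} [Field k] {C : Type u} [Category.{v} C] [Abelian C] [Linear k C]
  [HasExt.{w} C] {ι : Type} {X : ι → C}

theorem exists_homExtQuiver (k : Type t) [Field k] [Linear k C] (X : ι → C) :
    Nonempty (HomExtQuiver k X) := by
  have key : ∀ (i j : ι) (d : Fin 2), ∃ (A : Type w) (f : A → Abelian.Ext (X i) (X j) (d : ℕ)),
      (∀ a, f a ∈ rad k X i j d) ∧
      LinearIndependent k (fun a : A => (rad2 k X i j d).mkQ (f a)) ∧
      rad k X i j d ≤ rad2 k X i j d ⊔ Submodule.span k (Set.range f) := by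
    intro i j d
    set W := rad2 k X i j d with hW
    set U := rad k X i j d with hU
    let U' := U.map W.mkQ
    let b := Module.Basis.ofVectorSpace k U'
    have hb : ∀ a, ∃ x ∈ U, W.mkQ x = (b a : _ ⧸ W) := fun a => (Submodule.mem_map).1 (b a).2
    choose f hf1 hf2 using hb
    refine ⟨Module.Basis.ofVectorSpaceIndex k U', f, hf1, ?_, ?_⟩
    · have h1 : LinearIndependent k (fun a => (b a : _ ⧸ W)) := by
        have := b.linearIndependent.map' U'.subtype (Submodule.ker_subtype _)
        exact this
      convert h1 using 2 with a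
      exact hf2 a
    · intro x hx
      have hx' : W.mkQ x ∈ U' := Submodule.mem_map_of_mem hx
      have h2 : (⟨W.mkQ x, hx'⟩ : U') ∈ Submodule.span k (Set.range b) := by
        rw [b.span_eq]; trivial
      have h3 : W.mkQ x ∈ (Submodule.span k (Set.range b)).map U'.subtype := ⟨_, h2, rfl⟩
      rw [Submodule.map_span, ← Set.range_comp] at h3
      have h4 : (Submodule.span k (Set.range (U'.subtype ∘ b))) =
          (Submodule.span k (Set.range f)).map W.mkQ := by
        rw [Submodule.map_span, ← Set.range_comp]
        congr 2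
        funext a
        exact (hf2 a).symm
      rw [h4] at h3
      obtain ⟨y, hy, hxy⟩ := h3
      have h5 : x - y ∈ W := by
        rw [← Submodule.ker_mkQ W, LinearMap.mem_ker, map_sub, hxy, sub_self]
      rw [show x = (x - y) + y by abel]
      exact Submodule.add_mem_sup h5 hy
  choose A f h1 h2 h3 using key
  exact ⟨{ Arr := A, val := fun {i j d} a => f i j d a, mem := fun {i j d} a => h1 i j d a
           indep := h2, span_le := h3 }⟩

theorem eval_eq_zero_of_generatedByMonomials {H : HomExtQuiver k X}
    (hH : H.GeneratedByMonomials) {i j : H.Vert} (f : Quiver.Path i j →₀ k)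
    (hf : f ∈ H.relIdeal i j) (p : Quiver.Path i j) (hp : f p ≠ 0) : H.eval p = 0 := by
  obtain ⟨S, -, hS⟩ := hH
  -- every element of the path ideal is supported on paths that lie in the ideal
  have key : ∀ g ∈ H.pathIdeal S i j, ∀ q : Quiver.Path i j, g q ≠ 0 →
      Finsupp.single q (1 : k) ∈ H.pathIdeal S i j := by
    intro g hg
    induction hg using Submodule.span_induction with
    | mem g hg =>
      intro q hq
      obtain ⟨a, b, p1, p2, p3, h1, rfl⟩ := hg
      have : (p1.comp p2).comp p3 = q := by
        by_contra hne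
        exact hq (Finsupp.single_eq_of_ne (Ne.symm hne))
      subst this
      exact Submodule.subset_span ⟨a, b, p1, p2, p3, h1, rfl⟩
    | zero => intro q hq; exact absurd rfl hq
    | add x y _ _ hx hy =>
      intro q hq
      by_cases h : x q = 0
      · apply hy
        intro h'
        apply hq
        rw [Finsupp.add_apply, h, h', add_zero]
      · exact hx q h
    | smul a x _ hx =>
      intro q hq
      apply hx
      intro h
      apply hq
      rw [Finsupp.smul_apply, h, smul_zero]
  rw [hS] at hf
  have h1 := key f hf p hp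
  rw [← hS] at h1
  have h2 : H.evalLin i j (Finsupp.single p 1) = 0 := h1
  unfold HomExtQuiver.evalLin at h2
  rw [Finsupp.linearCombination_single, one_smul] at h2
  exact (DirectSum.of_injective (β := fun n => Abelian.Ext (X i) (X j) n) (H.deg p)) 
    (h2.trans (map_zero _).symm)


/-- The index set of the collection. -/
inductive I : Type
  | a | b | x | c
  deriving DecidableEq

instance : Fintype I := ⟨{.a, .b, .x, .c}, by intro x; cases x <;> decide⟩

/-- The order `c < a, b < x` on the indices of the collection. -/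
def le : I → I → Bool
  | .c, _ => true
  | _, .x => true
  | .a, .a => true
  | .b, .b => true
  | _, _ => false

variable {X : I → C}

omit [Linear k C] in
theorem comp_three {A B D : C} (x : Abelian.Ext A B 0) (y : Abelian.Ext B D 0)
    (f : A ⟶ B) (g : B ⟶ D) (hx : x = Abelian.Ext.mk₀ f) (hy : y = Abelian.Ext.mk₀ g) :
    ((Abelian.Ext.mk₀ (𝟙 A)).comp x (rfl : 0 + 0 = 0)).comp y (rfl : 0 + 0 = 0) =
      Abelian.Ext.mk₀ (f ≫ g) := by
  subst hx hy
  simp

theorem eval_two (H : HomExtQuiver k X) {i j l : H.Vert} (α : H.Arr i j 0) (β : H.Arr j l 0)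
    (f : X i ⟶ X j) (g : X j ⟶ X l) (hα : H.val α = Abelian.Ext.mk₀ f)
    (hβ : H.val β = Abelian.Ext.mk₀ g) :
    H.eval ((Quiver.Path.nil.cons (⟨0, α⟩ : i ⟶ j)).cons (⟨0, β⟩ : j ⟶ l)) =
      Abelian.Ext.mk₀ (f ≫ g) :=
  comp_three (H.val α) (H.val β) f g hα hβ

theorem criterion (inc : ∀ i j, X i ⟶ X j)
    (h1 : ∀ (i j) (f : X i ⟶ X j), ∃ r : k, f = r • inc i j)
    (h0 : ∀ i j, le i j = false → ∀ f : X i ⟶ X j, f = 0)
    (hne : ∀ i j, le i j = true → inc i j ≠ 0)
    (hcomp : ∀ i j l, le i j = true → le j l = true → inc i j ≫ inc j l = inc i l)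
    (hid : ∀ i, inc i i = 𝟙 (X i)) (H : HomExtQuiver k X) : ¬ H.GeneratedByMonomials := by
  have hrefl : ∀ i, le i i = true := by decide
  -- every element of `Ext⁰` is a morphism
  have hmk : ∀ (i j : I) (x : Abelian.Ext (X i) (X j) 0), ∃ f : X i ⟶ X j,
      x = Abelian.Ext.mk₀ f := fun i j x =>
    ⟨_, (Abelian.Ext.mk₀_homEquiv₀_apply x).symm⟩
  -- nonzero objects
  have hX : ∀ i, ¬ IsIso (0 : X i ⟶ X i) := by
    intro i hi
    apply hne i i (hrefl i)
    rw [hid]
    have := IsIso.hom_inv_id (0 : X i ⟶ X i)
    rw [zero_comp] at this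
    exact this.symm
  -- no radical endomorphisms
  have hradii : ∀ i, rad k X i i 0 = ⊥ := by
    intro i
    show Submodule.span k _ = ⊥
    rw [Submodule.span_eq_bot]
    rintro x ⟨f, hf, rfl⟩
    obtain ⟨r, rfl⟩ := h1 i i f
    by_cases hr : r = 0
    · rw [hr, zero_smul, Abelian.Ext.mk₀_zero]
    · exfalso
      have := hf (r⁻¹ • inc i i)
      rw [hid, Linear.smul_comp, Linear.comp_smul, Category.comp_id, smul_smul,
        mul_inv_cancel₀ hr, one_smul, sub_self] at this
      exact hX i this
  have hradij : ∀ i j, i ≠ j → le i j = true → Abelian.Ext.mk₀ (inc i j) ∈ rad k X i j 0 := by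
    intro i j hij hle
    apply Submodule.subset_span
    refine ⟨inc i j, fun g => ?_, rfl⟩
    have hgt : le j i = false := by
      have : ∀ i j : I, i ≠ j → le i j = true → le j i = false := by decide
      exact this i j hij hle
    rw [h0 j i hgt g, comp_zero, sub_zero]
    infer_instance
  -- irreducible pairs
  have hrad2 : ∀ i j, (∀ l, l ≠ i → l ≠ j → le i l = false ∨ le l j = false) →
      rad2 k X i j 0 = ⊥ := by
    intro i j hij
    unfold rad2
    rw [Submodule.span_eq_bot]
    rintro z ⟨l, p, q, h, x, y, hx, hy, rfl⟩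
    obtain ⟨rfl, rfl⟩ : p = 0 ∧ q = 0 := by omega
    by_cases hl : l = i
    · subst hl
      rw [hradii, Submodule.mem_bot] at hx
      rw [hx, Abelian.Ext.zero_comp]
    by_cases hl' : l = j
    · subst hl'
      rw [hradii, Submodule.mem_bot] at hy
      rw [hy, Abelian.Ext.comp_zero]
    obtain ⟨f, rfl⟩ := hmk _ _ x
    obtain ⟨g, rfl⟩ := hmk _ _ y
    rcases hij l hl hl' with h' | h'
    · rw [h0 _ _ h' f, Abelian.Ext.mk₀_zero, Abelian.Ext.zero_comp]
    · rw [h0 _ _ h' g, Abelian.Ext.mk₀_zero, Abelian.Ext.comp_zero]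
  -- arrows
  have harr : ∀ i j, i ≠ j → le i j = true →
      (∀ l, l ≠ i → l ≠ j → le i l = false ∨ le l j = false) →
      ∃ (α : H.Arr i j 0) (r : k), r ≠ 0 ∧ H.val α = Abelian.Ext.mk₀ (r • inc i j) := by
    intro i j hij hle hirr
    have h2 := H.span_le i j 0
    have h3 := hradij i j hij hle
    by_contra hcon
    push Not at hcon
    have h4 : ∀ α : H.Arr i j 0, H.val α = 0 := by
      intro α
      obtain ⟨f, hf⟩ := hmk i j (H.val α)
      obtain ⟨r, rfl⟩ := h1 i j f
      by_cases hr : r = 0
      · rw [hf, hr, zero_smul]; exact Abelian.Ext.mk₀_zero _ _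
      · exact absurd hf (hcon α r hr)
    have h5 : (Submodule.span k (Set.range (fun a : H.Arr i j 0 => H.val a))) = ⊥ := by
      rw [Submodule.span_eq_bot]
      rintro _ ⟨α, rfl⟩
      exact h4 α
    rw [h5, sup_bot_eq] at h2
    have h6 : Abelian.Ext.mk₀ (inc i j) ∈ rad2 k X i j 0 := h2 h3
    rw [hrad2 i j hirr, Submodule.mem_bot, Abelian.Ext.mk₀_eq_zero_iff] at h6
    exact hne i j hle h6
  intro hH
  have V_ab : I.a ≠ I.b := by decide
  obtain ⟨α₁, r₁, hr₁, hα₁⟩ := harr .c .a (by decide) (by decide) (by decide)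
  obtain ⟨α₂, r₂, hr₂, hα₂⟩ := harr .a .x (by decide) (by decide) (by decide)
  obtain ⟨β₁, s₁, hs₁, hβ₁⟩ := harr .c .b (by decide) (by decide) (by decide)
  obtain ⟨β₂, s₂, hs₂, hβ₂⟩ := harr .b .x (by decide) (by decide) (by decide)
  let vc : H.Vert := I.c
  let va : H.Vert := I.a
  let vb : H.Vert := I.b
  let vz : H.Vert := I.x
  let e₁ : vc ⟶ va := ⟨0, α₁⟩
  let e₂ : va ⟶ vz := ⟨0, α₂⟩
  let f₁ : vc ⟶ vb := ⟨0, β₁⟩
  let f₂ : vb ⟶ vz := ⟨0, β₂⟩
  let p : Quiver.Path vc vz := (Quiver.Path.nil.cons e₁).cons e₂
  let q : Quiver.Path vc vz := (Quiver.Path.nil.cons f₁).cons f₂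
  have hpq : p ≠ q := by
    intro h
    have := Quiver.Path.obj_eq_of_cons_eq_cons h
    exact absurd (show (I.a = I.b) from this) V_ab
  have hp : H.eval p = Abelian.Ext.mk₀ ((r₁ * r₂) • inc .c .x) := by
    have h8 := eval_two H α₁ α₂ _ _ hα₁ hα₂
    rw [Linear.smul_comp, Linear.comp_smul, hcomp .c .a .x (by decide) (by decide),
      smul_smul] at h8
    exact h8
  have hq : H.eval q = Abelian.Ext.mk₀ ((s₁ * s₂) • inc .c .x) := by
    have h8 := eval_two H β₁ β₂ _ _ hβ₁ hβ₂
    rw [Linear.smul_comp, Linear.comp_smul, hcomp .c .b .x (by decide) (by decide),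
      smul_smul] at h8
    exact h8
  have hmksmul : ∀ (r : k) (f : X .c ⟶ X .x), Abelian.Ext.mk₀ (r • f) = r • Abelian.Ext.mk₀ f := by
    intro r f
    rw [Abelian.Ext.smul_eq_comp_mk₀, Abelian.Ext.mk₀_comp_mk₀, Linear.comp_smul,
      Category.comp_id]
  have hlin : ∀ (x y : k), H.evalLin vc vz (Finsupp.single p x - Finsupp.single q y) =
      DirectSum.lof k ℕ (fun n => Abelian.Ext (X .c) (X .x) n) 0
        (x • Abelian.Ext.mk₀ ((r₁ * r₂) • inc .c .x) -
          y • Abelian.Ext.mk₀ ((s₁ * s₂) • inc .c .x)) := by
    intro x y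
    unfold HomExtQuiver.evalLin
    rw [map_sub, Finsupp.linearCombination_single, Finsupp.linearCombination_single, hp, hq]
    rw [map_sub, map_smul, map_smul]
    rfl
  have hmem : (Finsupp.single p (s₁ * s₂) - Finsupp.single q (r₁ * r₂)) ∈
      H.relIdeal vc vz := by
    unfold HomExtQuiver.relIdeal
    rw [LinearMap.mem_ker, hlin, hmksmul, hmksmul, smul_smul, smul_smul, mul_comm (s₁ * s₂),
      sub_self, map_zero]
  have hne' := eval_eq_zero_of_generatedByMonomials hH _ hmem p (by
    rw [Finsupp.sub_apply, Finsupp.single_eq_same, Finsupp.single_eq_of_ne (by exact hpq), sub_zero]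
    exact mul_ne_zero hs₁ hs₂)
  rw [hp] at hne'
  have h7 := (Abelian.Ext.mk₀_eq_zero_iff _).1 hne'
  rw [smul_eq_zero] at h7
  exact h7.elim (mul_ne_zero hr₁ hr₂) (hne .c .x (by decide))

end General

section Quiver

/-- The vertices of a quiver of type `D₄`. -/
inductive V : Type
  | a | b | z | c
  deriving DecidableEq

instance : Fintype V := ⟨{.a, .b, .z, .c}, by intro v; cases v <;> decide⟩

/-- The arrows `a → z`, `b → z`, `z → c` of a quiver of type `D₄`. -/
inductive Arrow : V → V → Type
  | az : Arrow .a .z
  | bz : Arrow .b .z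
  | zc : Arrow .z .c

instance : Quiver.{0} V := ⟨Arrow⟩

/-- Finite-dimensional representations of a quiver. -/
abbrev FDRep (k : Type u) [Field k] (Q : Type) [Quiver.{0} Q] := Paths Q ⥤ FGModuleCat.{u} k

variable (k : Type u) [Field k]

/-- `k` or zero. -/
def U (b : Bool) : Submodule k k := bif b then ⊤ else ⊥

variable {k}

/-- the identity where possible -/
def E (b : Bool) : (b' : Bool) → U k b →ₗ[k] U k b'
  | true => LinearMap.codRestrict _ (U k b).subtype (fun _ => trivial)
  | false => 0

theorem E_true (b : Bool) (x : U k b) : (E b true x : k) = x := rfl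
theorem E_false (b : Bool) (x : U k b) : (E b false x : k) = 0 := rfl

theorem U_false (x : U k false) : (x : k) = 0 := (Submodule.mem_bot k).1 x.2

theorem U_false' {b : Bool} (h : b = false) (x : U k b) : x = 0 := by
  subst h; exact Subtype.ext (U_false x)

/-- the unit -/
def one : U k true := ⟨1, trivial⟩

theorem eq_smul_one (x : U k true) : x = (x : k) • one := by
  apply Subtype.ext
  show (x : k) = (x : k) * 1
  rw [mul_one]

/-- vertex as object of the path category -/
abbrev vx (v : V) : Paths V := (Paths.of V).obj v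

/-- The data of the thin representation with support `S`: `k` at the vertices of `S`, and
identity maps along the arrows between two vertices of `S`. -/
def thPre (k : Type u) [Field k] (S : V → Bool) : V ⥤q FGModuleCat.{u} k where
  obj := fun v => FGModuleCat.of k (U k (S v))
  map := fun {v w} _ => FGModuleCat.ofHom (E (S v) (S w))

/-- Thin representation with support `S`. -/
def Th (k : Type u) [Field k] (S : V → Bool) : FDRep k V := Paths.lift (thPre k S)

/-- action of an arrow -/
def act (N : FDRep k V) {v w : V} (e : v ⟶ w) : N.obj (vx v) →ₗ[k] N.obj (vx w) :=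
  (N.map ((Paths.of V).map e)).hom.hom

theorem act_Th (S : V → Bool) {v w : V} (e : v ⟶ w) :
    act (Th k S) e = E (S v) (S w) :=
  congrArg (fun t => t.hom.hom) (Paths.lift_toPath (thPre k S) e)

/-- component of a morphism -/
def cmp {M N : FDRep k V} (f : M ⟶ N) (v : V) : M.obj (vx v) →ₗ[k] N.obj (vx v) :=
  (f.app (vx v)).hom.hom

theorem cmp_act {M N : FDRep k V} (f : M ⟶ N) {v w : V} (e : v ⟶ w)
    (x : M.obj (vx v)) : act N e (cmp f v x) = cmp f w (act M e x) := by
  have := f.naturality ((Paths.of V).map e)
  have h2 := congrArg (fun t => t.hom.hom x) this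
  exact h2.symm

theorem hom_ext' {M N : FDRep k V} {f g : M ⟶ N} (h : ∀ v x, cmp f v x = cmp g v x) : f = g := by
  apply NatTrans.ext
  funext v
  apply FGModuleCat.hom_ext
  apply LinearMap.ext
  intro x
  exact h v x

/-- build a morphism of representations -/
def mkHom {M N : FDRep k V} (φ : ∀ v : V, M.obj (vx v) →ₗ[k] N.obj (vx v))
    (h : ∀ {v w : V} (e : v ⟶ w) (x : M.obj (vx v)), φ w (act M e x) = act N e (φ v x)) :
    M ⟶ N where
  app v := ObjectProperty.homMk (ModuleCat.ofHom (φ v))
  naturality := by
    intro v w p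
    induction p using Paths.induction_fixed_source with
    | id => rw [M.map_id, N.map_id, Category.id_comp, Category.comp_id]
    | comp p e ih =>
      rw [M.map_comp, N.map_comp, Category.assoc]
      have h3 : M.map ((Paths.of V).map e) ≫ (ObjectProperty.homMk (ModuleCat.ofHom (φ _)) : M.obj _ ⟶ N.obj _) =
          (ObjectProperty.homMk (ModuleCat.ofHom (φ _)) : M.obj _ ⟶ N.obj _) ≫ N.map ((Paths.of V).map e) := by
        apply FGModuleCat.hom_ext
        apply LinearMap.ext
        intro x
        exact h e x
      refine (congrArg (fun t => M.map p ≫ t) h3).trans ?_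
      refine (Category.assoc _ _ _).symm.trans ?_
      refine (congrArg (fun t => t ≫ N.map ((Paths.of V).map e)) ih).trans ?_
      exact Category.assoc _ _ _

theorem cmp_mkHom {M N : FDRep k V} (φ : ∀ v : V, M.obj (vx v) →ₗ[k] N.obj (vx v))
    (h : ∀ {v w : V} (e : v ⟶ w) (x : M.obj (vx v)), φ w (act M e x) = act N e (φ v x)) (v : V) :
    cmp (mkHom φ h) v = φ v := rfl

theorem cmp_comp {M N P : FDRep k V} (f : M ⟶ N) (g : N ⟶ P) (v : V) (x : M.obj (vx v)) :
    cmp (f ≫ g) v x = cmp g v (cmp f v x) := rfl

theorem cmp_id {M : FDRep k V} (v : V) (x : M.obj (vx v)) : cmp (𝟙 M) v x = x := rfl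

theorem cmp_smul {M N : FDRep k V} (r : k) (f : M ⟶ N) (v : V) (x : M.obj (vx v)) :
    cmp (r • f) v x = r • cmp f v x := rfl

theorem cmp_zero {M N : FDRep k V} (v : V) (x : M.obj (vx v)) :
    cmp (0 : M ⟶ N) v x = 0 := rfl

theorem cmp_surj {M N : FDRep k V} (f : M ⟶ N) [Epi f] (v : V) : Function.Surjective (cmp f v) := by
  have h1 : Epi (f.app (vx v)) := inferInstance
  have h2 : Epi ((forget₂ (FGModuleCat k) (ModuleCat k)).map (f.app (vx v))) := inferInstance
  exact (ModuleCat.epi_iff_surjective _).1 h2

theorem cmp_inj {M N : FDRep k V} (f : M ⟶ N) [Mono f] (v : V) : Function.Injective (cmp f v) := by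
  have h1 : Mono (f.app (vx v)) := inferInstance
  have h2 : Mono ((forget₂ (FGModuleCat k) (ModuleCat k)).map (f.app (vx v))) := inferInstance
  exact (ModuleCat.mono_iff_injective _).1 h2

theorem epi_of_surj {M N : FDRep k V} (f : M ⟶ N) (h : ∀ v, Function.Surjective (cmp f v)) :
    Epi f := by
  constructor
  intro Z g g' hg
  apply hom_ext'
  intro v x
  obtain ⟨y, rfl⟩ := h v x
  rw [← cmp_comp, ← cmp_comp, hg]

theorem mono_of_inj {M N : FDRep k V} (f : M ⟶ N) (h : ∀ v, Function.Injective (cmp f v)) :
    Mono f := by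
  constructor
  intro Z g g' hg
  apply hom_ext'
  intro v x
  apply h v
  rw [← cmp_comp, ← cmp_comp, hg]


/-- value of an element of a thin representation -/
def vl (S : V → Bool) (v : V) : (Th k S).obj (vx v) →ₗ[k] k := (U k (S v)).subtype

theorem vl_inj (S : V → Bool) (v : V) : Function.Injective (vl (k := k) S v) :=
  Subtype.val_injective

theorem vl_false {S : V → Bool} {v : V} (h : S v = false) (x : (Th k S).obj (vx v)) :
    vl S v x = 0 := by
  have h2 : ∀ (b : Bool) (y : U k b), b = false → (y : k) = 0 := by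
    intro b y hb
    subst hb
    exact U_false y
  exact h2 (S v) x h

theorem vl_E (b b' : Bool) (x : U k b) : (E b b' x : k) = if b' then (x : k) else 0 := by
  cases b' <;> rfl

theorem vl_act (S : V → Bool) {v w : V} (e : v ⟶ w) (x : (Th k S).obj (vx v)) :
    vl S w (act (Th k S) e x) = if S w then vl S v x else 0 := by
  rw [act_Th]
  exact vl_E _ _ _

/-- element with given value -/
def el {S : V → Bool} {v : V} (h : S v = true) (r : k) : (Th k S).obj (vx v) :=
  (⟨r, by rw [h]; trivial⟩ : U k (S v))

theorem vl_el {S : V → Bool} {v : V} (h : S v = true) (r : k) : vl S v (el h r) = r := rfl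

/-- component of the canonical map -/
def incL (S T : V → Bool) (v : V) : (Th k S).obj (vx v) →ₗ[k] (Th k T).obj (vx v) :=
  E (S v) (T v)

theorem vl_incL (S T : V → Bool) (v : V) (x : (Th k S).obj (vx v)) :
    vl T v (incL S T v x) = if T v then vl S v x else 0 := vl_E _ _ _

theorem arrow_ind {P : ∀ v w : V, (v ⟶ w) → Prop} (h1 : P .a .z Arrow.az)
    (h2 : P .b .z Arrow.bz) (h3 : P .z .c Arrow.zc) : ∀ {v w : V} (e : v ⟶ w), P v w e := by
  intro v w (e : Arrow v w)
  cases e with
  | az => exact h1
  | bz => exact h2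
  | zc => exact h3

/-- the canonical map between thin representations -/
def inc {S T : V → Bool} (h : ∀ {v w : V}, (v ⟶ w) → S v = true → T w = true → S w = T v) :
    Th k S ⟶ Th k T :=
  mkHom (fun v => incL S T v) (by
    intro v w e x
    apply vl_inj T w
    rw [vl_act, vl_incL, vl_incL, vl_act]
    by_cases hw : T w = true
    · rw [if_pos hw, if_pos hw]
      by_cases hv : S v = true
      · rw [h e hv hw]
      · rw [vl_false (by simpa using hv)]; simp
    · rw [if_neg hw, if_neg hw])

theorem vl_inc {S T : V → Bool} (h : ∀ {v w : V}, (v ⟶ w) → S v = true → T w = true → S w = T v)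
    (v : V) (x : (Th k S).obj (vx v)) :
    vl T v (cmp (inc h) v x) = if T v then vl S v x else 0 := vl_E _ _ _

/-- morphism out of a thin representation -/
def ofFam (S : V → Bool) (N : FDRep k V) (n : ∀ v, N.obj (vx v))
    (h : ∀ {v w : V} (e : v ⟶ w), S v = true → S w = true ∧ act N e (n v) = n w) :
    Th k S ⟶ N :=
  mkHom (fun v => (vl S v).smulRight (n v)) (by
    intro v w e x
    rw [LinearMap.smulRight_apply, LinearMap.smulRight_apply, vl_act, map_smul]
    by_cases hv : S v = true
    · obtain ⟨h1, h2⟩ := h e hv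
      rw [h1, h2, if_pos rfl]
    · rw [vl_false (by simpa using hv)]; simp)

theorem cmp_ofFam (S : V → Bool) (N : FDRep k V) (n : ∀ v, N.obj (vx v))
    (h : ∀ {v w : V} (e : v ⟶ w), S v = true → S w = true ∧ act N e (n v) = n w)
    (v : V) (x : (Th k S).obj (vx v)) : cmp (ofFam S N n h) v x = vl S v x • n v := rfl

/-- morphism into the full thin representation -/
def toFam (N : FDRep k V) (ψ : ∀ v, N.obj (vx v) →ₗ[k] k)
    (h : ∀ {v w : V} (e : v ⟶ w) (x : N.obj (vx v)), ψ w (act N e x) = ψ v x) :
    N ⟶ Th k (fun _ => true) :=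
  mkHom (fun v => LinearMap.codRestrict (U k true) (ψ v) (fun _ => trivial)) (by
    intro v w e x
    apply vl_inj (fun _ => true) w
    rw [vl_act, if_pos rfl]
    exact h e x)

theorem vl_toFam (N : FDRep k V) (ψ : ∀ v, N.obj (vx v) →ₗ[k] k)
    (h : ∀ {v w : V} (e : v ⟶ w) (x : N.obj (vx v)), ψ w (act N e x) = ψ v x)
    (v : V) (x : N.obj (vx v)) : vl (fun _ => true) v (cmp (toFam N ψ h) v x) = ψ v x := rfl

theorem eq_smul_el {S : V → Bool} {v : V} (h : S v = true) (x : (Th k S).obj (vx v)) :
    x = vl S v x • el h 1 := by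
  apply vl_inj
  rw [map_smul, vl_el, smul_eq_mul, mul_one]

theorem proj_aux (S : V → Bool) {M N : FDRep k V} (q : M ⟶ N) (f : Th k S ⟶ N)
    (n : ∀ v, M.obj (vx v))
    (h : ∀ {v w : V} (e : v ⟶ w), S v = true → S w = true ∧ act M e (n v) = n w)
    (hq : ∀ v (hv : S v = true), cmp q v (n v) = cmp f v (el hv 1)) :
    ∃ f' : Th k S ⟶ M, f' ≫ q = f := by
  refine ⟨ofFam S M n h, ?_⟩
  apply hom_ext'
  intro v x
  rw [cmp_comp, cmp_ofFam, map_smul]
  by_cases hv : S v = true
  · rw [hq v hv, ← map_smul, ← eq_smul_el hv x]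
  · have h1 : vl S v x = 0 := vl_false (by simpa using hv) x
    have h2 : x = 0 := vl_inj S v (by rw [h1, map_zero])
    rw [h1, h2, zero_smul, map_zero]

theorem act_el {S : V → Bool} {v w : V} (e : v ⟶ w) (hv : S v = true) (hw : S w = true) (r : k) :
    act (Th k S) e (el hv r) = el hw r := by
  apply vl_inj
  rw [vl_act, if_pos hw, vl_el, vl_el]

/-- The supports of the members of the collection. -/
def supp : I → V → Bool
  | .c, .c => true
  | .c, _ => false
  | .a, .b => false
  | .a, _ => true
  | .b, .a => false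
  | .b, _ => true
  | .x, _ => true

instance proj_c : Projective (Th k (supp .c)) where
  factors := by
    intro M N f q hq
    obtain ⟨n, hn⟩ := cmp_surj q .c (cmp f .c (el rfl 1))
    refine proj_aux _ q f (fun v => match v with
      | .a => 0
      | .b => 0
      | .z => 0
      | .c => n) ?_ ?_
    · intro v w e
      induction e using arrow_ind with
      | h1 => intro hv; exact absurd hv (by decide)
      | h2 => intro hv; exact absurd hv (by decide)
      | h3 => intro hv; exact absurd hv (by decide)
    · intro v hv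
      cases v with
      | c => exact hn
      | a => exact absurd hv (by decide)
      | b => exact absurd hv (by decide)
      | z => exact absurd hv (by decide)

instance proj_a : Projective (Th k (supp .a)) where
  factors := by
    intro M N f q hq
    obtain ⟨n, hn⟩ := cmp_surj q .a (cmp f .a (el rfl 1))
    refine proj_aux _ q f (fun v => match v with
      | .a => n
      | .b => 0
      | .z => act M Arrow.az n
      | .c => act M Arrow.zc (act M Arrow.az n)) ?_ ?_
    · intro v w e
      induction e using arrow_ind with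
      | h1 => intro hv; exact ⟨rfl, rfl⟩
      | h2 => intro hv; exact absurd hv (by decide)
      | h3 => intro hv; exact ⟨rfl, rfl⟩
    · intro v hv
      have hz : cmp q .z (act M Arrow.az n) = cmp f .z (el rfl 1) := by
        rw [← cmp_act, hn, cmp_act, act_el Arrow.az rfl rfl]
      cases v with
      | c =>
        show cmp q .c (act M Arrow.zc (act M Arrow.az n)) = _
        rw [← cmp_act, hz, cmp_act, act_el Arrow.zc rfl rfl]
      | a => exact hn
      | b => exact absurd hv (by decide)
      | z => exact hz

instance proj_b : Projective (Th k (supp .b)) where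
  factors := by
    intro M N f q hq
    obtain ⟨n, hn⟩ := cmp_surj q .b (cmp f .b (el rfl 1))
    refine proj_aux _ q f (fun v => match v with
      | .b => n
      | .a => 0
      | .z => act M Arrow.bz n
      | .c => act M Arrow.zc (act M Arrow.bz n)) ?_ ?_
    · intro v w e
      induction e using arrow_ind with
      | h1 => intro hv; exact absurd hv (by decide)
      | h2 => intro hv; exact ⟨rfl, rfl⟩
      | h3 => intro hv; exact ⟨rfl, rfl⟩
    · intro v hv
      have hz : cmp q .z (act M Arrow.bz n) = cmp f .z (el rfl 1) := by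
        rw [← cmp_act, hn, cmp_act, act_el Arrow.bz rfl rfl]
      cases v with
      | c =>
        show cmp q .c (act M Arrow.zc (act M Arrow.bz n)) = _
        rw [← cmp_act, hz, cmp_act, act_el Arrow.zc rfl rfl]
      | b => exact hn
      | a => exact absurd hv (by decide)
      | z => exact hz


instance inj_x : Injective (Th k (fun _ => true)) where
  factors := by
    intro M N g f hf
    have hinj := cmp_inj f .c
    obtain ⟨ρ, hρ⟩ := LinearMap.exists_leftInverse_of_injective (cmp f .c)
      (LinearMap.ker_eq_bot.2 hinj)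
    have hρ' : ∀ x, ρ (cmp f .c x) = x := fun x => LinearMap.congr_fun hρ x
    let φ : N.obj (vx .c) →ₗ[k] k := (vl (fun _ => true) .c) ∘ₗ (cmp g .c) ∘ₗ ρ
    have hφ : ∀ x, φ (cmp f .c x) = vl (fun _ => true) .c (cmp g .c x) := by
      intro x
      show vl (fun _ => true) .c (cmp g .c (ρ (cmp f .c x))) = _
      rw [hρ']
    refine ⟨toFam N (fun v => match v with
      | .c => φ
      | .z => φ ∘ₗ act N Arrow.zc
      | .a => φ ∘ₗ act N Arrow.zc ∘ₗ act N Arrow.az
      | .b => φ ∘ₗ act N Arrow.zc ∘ₗ act N Arrow.bz) ?_, ?_⟩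
    · intro v w e
      induction e using arrow_ind with
      | h1 => intro x; rfl
      | h2 => intro x; rfl
      | h3 => intro x; rfl
    · apply hom_ext'
      intro v x
      apply vl_inj
      rw [cmp_comp, vl_toFam]
      have hz : ∀ y : M.obj (vx .z), φ (act N Arrow.zc (cmp f .z y)) =
          vl (fun _ => true) .z (cmp g .z y) := by
        intro y
        rw [cmp_act, hφ, ← cmp_act, vl_act, if_pos rfl]
      cases v with
      | c => exact hφ x
      | z => exact hz x
      | a =>
        show φ (act N Arrow.zc (act N Arrow.az (cmp f .a x))) = _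
        rw [cmp_act, hz, ← cmp_act, vl_act, if_pos rfl]
      | b =>
        show φ (act N Arrow.zc (act N Arrow.bz (cmp f .b x))) = _
        rw [cmp_act, hz, ← cmp_act, vl_act, if_pos rfl]

/-- successor-closed supports -/
def SC (S : V → Bool) : Prop := ∀ {v w : V}, (v ⟶ w) → S v = true → S w = true

theorem SC_incl {S : V → Bool} (hS : SC S) :
    ∀ {v w : V}, (v ⟶ w) → S v = true → (fun _ : V => true) w = true →
      S w = (fun _ : V => true) v := fun e h _ => hS e h

theorem SC_quot {S : V → Bool} (hS : SC S) :
    ∀ {v w : V}, (v ⟶ w) → (fun _ : V => true) v = true → (fun u => !(S u)) w = true →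
      (fun _ : V => true) w = (fun u => !(S u)) v := by
  intro v w e _ h
  show true = !(S v)
  cases h2 : S v
  · rfl
  · have := hS e h2
    simp [this] at h

/-- inclusion of the subrepresentation with successor-closed support -/
def incl {S : V → Bool} (hS : SC S) : Th k S ⟶ Th k (fun _ => true) := inc (SC_incl hS)

/-- the quotient map -/
def quot {S : V → Bool} (hS : SC S) : Th k (fun _ => true) ⟶ Th k (fun u => !(S u)) :=
  inc (SC_quot hS)

theorem vl_incl {S : V → Bool} (hS : SC S) (v : V) (x : (Th k S).obj (vx v)) :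
    vl (fun _ => true) v (cmp (incl hS) v x) = vl S v x :=
  (vl_inc (SC_incl hS) v x).trans (if_pos rfl)

theorem vl_quot {S : V → Bool} (hS : SC S) (v : V) (x : (Th k (fun _ => true)).obj (vx v)) :
    vl (fun u => !(S u)) v (cmp (quot hS) v x) = if (!(S v)) = true then vl (fun _ => true) v x else 0 :=
  vl_inc (SC_quot hS) v x

theorem incl_quot {S : V → Bool} (hS : SC S) : incl (k := k) hS ≫ quot hS = 0 := by
  apply hom_ext'
  intro v x
  apply vl_inj
  rw [cmp_comp, vl_quot, vl_incl, cmp_zero, map_zero]
  by_cases h : S v = true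
  · rw [if_neg (by simp [h])]
  · rw [vl_false (by simpa using h)]; simp

theorem mono_incl {S : V → Bool} (hS : SC S) : Mono (incl (k := k) hS) := by
  apply mono_of_inj
  intro v x y hxy
  apply vl_inj
  have := congrArg (vl (fun _ => true) v) hxy
  rwa [vl_incl, vl_incl] at this

theorem epi_quot {S : V → Bool} (hS : SC S) : Epi (quot (k := k) hS) := by
  apply epi_of_surj
  intro v y
  refine ⟨el (S := fun _ => true) rfl (vl _ v y), ?_⟩
  apply vl_inj
  rw [vl_quot, vl_el]
  by_cases h : (!(S v)) = true
  · rw [if_pos h]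
  · have h2 : (fun u => !(S u)) v = false := by simpa using h
    rw [if_neg h, vl_false h2]

/-- the codomain restriction of a map to the full thin representation -/
def restr {W : FDRep k V} {S : V → Bool} (t : W ⟶ Th k (fun _ => true)) (v : V)
    (h : S v = false → ∀ x : W.obj (vx v), vl (fun _ => true) v (cmp t v x) = 0) :
    W.obj (vx v) →ₗ[k] (Th k S).obj (vx v) :=
  LinearMap.codRestrict (U k (S v)) ((vl (fun _ => true) v) ∘ₗ (cmp t v)) (by
    intro x
    cases hv : S v
    · have := h hv x
      show vl (fun _ => true) v (cmp t v x) ∈ U k false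
      rw [this]
      exact zero_mem _
    · trivial)

theorem vl_restr {W : FDRep k V} {S : V → Bool} (t : W ⟶ Th k (fun _ => true)) (v : V)
    (h : S v = false → ∀ x : W.obj (vx v), vl (fun _ => true) v (cmp t v x) = 0)
    (x : W.obj (vx v)) : vl S v (restr t v h x) = vl (fun _ => true) v (cmp t v x) := rfl

theorem lift_incl {S : V → Bool} (hS : SC S) {W : FDRep k V} (t : W ⟶ Th k (fun _ => true))
    (ht : t ≫ quot hS = 0) : ∃ l : W ⟶ Th k S, l ≫ incl hS = t := by
  have hval : ∀ v, S v = false → ∀ x : W.obj (vx v), vl (fun _ => true) v (cmp t v x) = 0 := by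
    intro v hv x
    have h1 : cmp (t ≫ quot hS) v x = cmp (0 : W ⟶ _) v x := by
      exact congrArg (fun s => cmp s v x) ht
    rw [cmp_comp, cmp_zero] at h1
    have h2 := congrArg (vl _ v) h1
    rw [vl_quot, map_zero, if_pos (by simp [hv])] at h2
    exact h2
  refine ⟨mkHom (fun v => restr t v (hval v)) ?_, ?_⟩
  · intro v w e x
    apply vl_inj
    rw [vl_restr, vl_act, vl_restr, ← cmp_act, vl_act, if_pos rfl]
    by_cases hw : S w = true
    · rw [if_pos hw]
    · rw [if_neg hw]
      apply hval v
      cases h : S v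
      · rfl
      · exact absurd (hS e h) hw
  · apply hom_ext'
    intro v x
    apply vl_inj
    rw [cmp_comp, vl_incl]
    rfl

/-- The exact sequence `0 → Th S → Th univ → Th (univ \ S) → 0`. -/
noncomputable def seq {S : V → Bool} (hS : SC S) : ShortComplex (FDRep k V) :=
  ShortComplex.mk (incl hS) (quot hS) (incl_quot hS)

theorem seq_exact {S : V → Bool} (hS : SC S) : (seq (k := k) hS).ShortExact where
  mono_f := mono_incl hS
  epi_g := epi_quot hS
  exact := by
    apply ShortComplex.exact_of_f_is_kernel
    haveI : Mono (seq (k := k) hS).f := mono_incl hS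
    exact KernelFork.IsLimit.ofι' _ _ (fun {W} t ht =>
      ⟨(lift_incl hS t ht).choose, (lift_incl hS t ht).choose_spec⟩)

theorem ext_zero_of_injective_middle {C : Type*} [Category C] [Abelian C] [HasExt.{w} C]
    {S : ShortComplex C} (hS : S.ShortExact) (X : C) (hI : Injective S.X₂)
    (h : ∀ g : X ⟶ S.X₃, ∃ g' : X ⟶ S.X₂, g' ≫ S.g = g) (x : Abelian.Ext X S.X₁ 1) : x = 0 := by
  obtain ⟨x₃, hx₃⟩ := Abelian.Ext.covariant_sequence_exact₁ (X := X)
    (hS := hS) x (Abelian.Ext.eq_zero_of_injective (n := 0) _) (n₀ := 0) rfl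
  rw [← hx₃]
  obtain ⟨g, rfl⟩ : ∃ g, x₃ = Abelian.Ext.mk₀ g := ⟨_, (Abelian.Ext.mk₀_homEquiv₀_apply x₃).symm⟩
  obtain ⟨g', rfl⟩ := h g
  rw [← Abelian.Ext.mk₀_comp_mk₀, Abelian.Ext.comp_assoc_of_second_deg_zero,
    ShortComplex.ShortExact.comp_extClass, Abelian.Ext.comp_zero]

theorem ext_vanish [HasExt.{w} (FDRep k V)] {S : V → Bool} (hS : SC S)
    (h : ∀ f : Th k (fun _ => true) ⟶ Th k (fun u => !(S u)), ∃ r : k, f = r • quot hS)
    (x : Abelian.Ext (Th k (fun _ => true)) (Th k S) 1) : x = 0 := by
  refine ext_zero_of_injective_middle (S := seq (k := k) hS) (seq_exact hS)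
    (Th k (fun _ => true)) inj_x ?_ x
  intro g
  obtain ⟨r, hr⟩ := h g
  refine ⟨r • 𝟙 _, ?_⟩
  have h3 : (r • 𝟙 (Th k (fun _ : V => true))) ≫ quot hS = r • quot hS := by
    rw [Linear.smul_comp, Category.id_comp]
  exact h3.trans hr.symm

theorem supp_c : ∀ i, supp i .c = true := by decide
theorem supp_a : ∀ i, supp i .a = true → supp i .z = true := by decide
theorem supp_b : ∀ i, supp i .b = true → supp i .z = true := by decide

theorem supp_SC (i : I) : SC (supp i) := by
  intro v w e
  induction e using arrow_ind with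
  | h1 => exact supp_a i
  | h2 => exact supp_b i
  | h3 => exact fun _ => supp_c i

/-- Morphisms from a thin representation to a thin representation whose supports contain the
sink are multiplications by a scalar. -/
theorem hom_val (i j : I) (f : Th k (supp i) ⟶ Th k (supp j)) :
    ∃ r : k, ∀ v (x : (Th k (supp i)).obj (vx v)),
      vl (supp j) v (cmp f v x) = r * vl (supp i) v x := by
  have hi : supp i .c = true := supp_c i
  have hj : supp j .c = true := supp_c j
  refine ⟨vl (supp j) .c (cmp f .c (el hi 1)), ?_⟩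
  set r := vl (supp j) .c (cmp f .c (el hi 1)) with hr
  have hc : ∀ x : (Th k (supp i)).obj (vx .c),
      vl (supp j) .c (cmp f .c x) = r * vl (supp i) .c x := by
    intro x
    conv_lhs => rw [eq_smul_el hi x]
    rw [map_smul, map_smul, smul_eq_mul, mul_comm]
  have hz : ∀ x : (Th k (supp i)).obj (vx .z),
      vl (supp j) .z (cmp f .z x) = r * vl (supp i) .z x := by
    intro x
    have h1 := congrArg (vl (supp j) .c) (cmp_act f Arrow.zc x)
    rw [vl_act, if_pos hj, hc, vl_act, if_pos hi] at h1
    exact h1
  have hside : ∀ (v : V) (e : v ⟶ V.z) (h1 : supp i v = true → supp i .z = true)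
      (h2 : supp j v = true → supp j .z = true) (x : (Th k (supp i)).obj (vx v)),
      vl (supp j) v (cmp f v x) = r * vl (supp i) v x := by
    intro v e h1 h2 x
    by_cases hiv : supp i v = true
    · have h3 := congrArg (vl (supp j) .z) (cmp_act f e x)
      rw [hz, vl_act, vl_act, if_pos (h1 hiv)] at h3
      by_cases hjz : supp j .z = true
      · rw [if_pos hjz] at h3
        exact h3
      · rw [if_neg hjz] at h3
        have hjv : supp j v = false := by
          cases h5 : supp j v
          · rfl
          · exact absurd (h2 h5) hjz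
        rw [vl_false hjv, h3]
    · have h4 : vl (supp i) v x = 0 := vl_false (by simpa using hiv) x
      have h5 : x = 0 := vl_inj _ v (by rw [h4, map_zero])
      rw [h5, map_zero, map_zero, map_zero, mul_zero]
  intro v
  cases v with
  | c => exact hc
  | z => exact hz
  | a => exact hside .a Arrow.az (supp_a i) (supp_a j)
  | b => exact hside .b Arrow.bz (supp_b i) (supp_b j)

/-- Morphisms from the full thin representation onto one of the quotients are multiples of the
quotient map. -/
theorem quot_val (i : I) (hi : i ≠ .x) (f : Th k (fun _ => true) ⟶ Th k (fun u => !(supp i u))) :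
    ∃ r : k, f = r • quot (supp_SC i) := by
  let ρ : V → k := fun v => vl (fun u => !(supp i u)) v (cmp f v (el rfl 1))
  have h1 : ∀ v (x : (Th k (fun _ : V => true)).obj (vx v)),
      vl (fun u => !(supp i u)) v (cmp f v x) = vl (fun _ => true) v x * ρ v := by
    intro v x
    conv_lhs => rw [eq_smul_el (S := fun _ => true) rfl x]
    rw [map_smul, map_smul, smul_eq_mul]
  have h2 : ∀ {v w : V} (e : v ⟶ w), supp i w = false → ρ v = ρ w := by
    intro v w e hw
    have h3 := congrArg (vl (fun u => !(supp i u)) w)
      (cmp_act f e (el (S := fun _ => true) rfl (1 : k)))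
    rw [vl_act, if_pos (by simp [hw]), act_el (S := fun _ => true) e rfl rfl] at h3
    exact h3
  have h4 : ∃ r : k, ∀ v, supp i v = false → ρ v = r := by
    cases i with
    | x => exact absurd rfl hi
    | a =>
      refine ⟨ρ .b, fun v hv => ?_⟩
      cases v with
      | b => rfl
      | a => exact absurd hv (by decide)
      | z => exact absurd hv (by decide)
      | c => exact absurd hv (by decide)
    | b =>
      refine ⟨ρ .a, fun v hv => ?_⟩
      cases v with
      | a => rfl
      | b => exact absurd hv (by decide)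
      | z => exact absurd hv (by decide)
      | c => exact absurd hv (by decide)
    | c =>
      refine ⟨ρ .z, fun v hv => ?_⟩
      cases v with
      | a => exact h2 Arrow.az rfl
      | b => exact h2 Arrow.bz rfl
      | z => rfl
      | c => exact absurd hv (by decide)
  obtain ⟨r, hr⟩ := h4
  refine ⟨r, ?_⟩
  apply hom_ext'
  intro v x
  apply vl_inj (fun u => !(supp i u))
  rw [h1, cmp_smul, map_smul, vl_quot]
  cases hv : supp i v
  · rw [hr v hv, if_pos (by simp), smul_eq_mul, mul_comm]
  · rw [if_neg (by simp), smul_zero]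
    have h5 : ρ v = 0 := vl_false (S := fun u => !(supp i u)) (by simp [hv]) _
    rw [h5, mul_zero]

/-- The four members of the collection. -/
abbrev X (k : Type u) [Field k] (i : I) : FDRep k V := Th k (supp i)

theorem supp_le : ∀ i j, le i j = true → ∀ v, supp i v = true → supp j v = true := by decide

theorem supp_not_le : ∀ i j, le i j = false → ∃ v, supp i v = true ∧ supp j v = false := by
  decide

theorem inc_cond : ∀ i j, le i j = true → ∀ {v w : V}, (v ⟶ w) → supp i v = true →
    supp j w = true → supp i w = supp j v := by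
  intro i j h v w e hv hw
  rw [supp_SC i e hv, supp_le i j h v hv]

/-- the canonical maps -/
def incX (k : Type u) [Field k] (i j : I) : X k i ⟶ X k j :=
  if h : le i j = true then inc (inc_cond i j h) else 0

theorem vl_incX (i j : I) (h : le i j = true) (v : V) (x : (X k i).obj (vx v)) :
    vl (supp j) v (cmp (incX k i j) v x) = vl (supp i) v x := by
  unfold incX
  rw [dif_pos h, vl_inc]
  by_cases hv : supp j v = true
  · rw [if_pos hv]
  · rw [if_neg hv]
    symm
    apply vl_false
    cases h2 : supp i v
    · rfl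
    · exact absurd (supp_le i j h v h2) hv

theorem X_zero (i j : I) (h : le i j = false) (f : X k i ⟶ X k j) : f = 0 := by
  obtain ⟨r, hr⟩ := hom_val i j f
  obtain ⟨v, hv, hv'⟩ := supp_not_le i j h
  have h1 := hr v (el hv 1)
  rw [vl_el, mul_one, vl_false hv'] at h1
  apply hom_ext'
  intro w y
  apply vl_inj
  rw [hr, ← h1, zero_mul, cmp_zero, map_zero]

theorem X_scalar (i j : I) (f : X k i ⟶ X k j) : ∃ r : k, f = r • incX k i j := by
  cases h : le i j
  · exact ⟨0, by rw [X_zero i j h f, zero_smul]⟩
  · obtain ⟨r, hr⟩ := hom_val i j f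
    refine ⟨r, ?_⟩
    apply hom_ext'
    intro w y
    apply vl_inj
    rw [hr, cmp_smul, map_smul]
    rw [vl_incX i j h w y]
    rfl

theorem incX_ne (i j : I) (h : le i j = true) : incX k i j ≠ 0 := by
  intro h0
  have h1 := vl_incX i j h .c (el (supp_c i) (1 : k))
  rw [h0, vl_el, cmp_zero, map_zero] at h1
  exact zero_ne_one h1

theorem incX_comp (i j l : I) (h : le i j = true) (h' : le j l = true) :
    incX k i j ≫ incX k j l = incX k i l := by
  have h'' : le i l = true := by revert i j l; decide
  apply hom_ext'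
  intro w y
  apply vl_inj (supp l)
  rw [cmp_comp, vl_incX j l h', vl_incX i j h, vl_incX i l h'']

theorem incX_id (i : I) : incX k i i = 𝟙 (X k i) := by
  have h : le i i = true := by revert i; decide
  apply hom_ext'
  intro w y
  apply vl_inj (supp i)
  rw [vl_incX i i h, cmp_id]

/-- An object whose endomorphisms are scalars is indecomposable. -/
theorem indecomposable_of_scalar {C : Type*} [Category C] [Abelian C] [Linear k C] (M : C)
    (h0 : 𝟙 M ≠ 0) (h : ∀ f : M ⟶ M, ∃ r : k, f = r • 𝟙 M) : Indecomposable M := by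
  refine ⟨fun hz => h0 (hz.eq_of_src _ _), ?_⟩
  intro Y Z a
  obtain ⟨r, hr⟩ := h (a.hom ≫ biprod.fst ≫ biprod.inl ≫ a.inv)
  have hidem : (a.hom ≫ biprod.fst ≫ biprod.inl ≫ a.inv) ≫
      (a.hom ≫ biprod.fst ≫ biprod.inl ≫ a.inv) = a.hom ≫ biprod.fst ≫ biprod.inl ≫ a.inv := by
    simp
  rw [hr, Linear.smul_comp, Category.id_comp, smul_smul] at hidem
  have h1 : (r * r - r) • 𝟙 M = 0 := by rw [sub_smul, hidem, sub_self]
  have h2 : r * r - r = 0 := by
    rcases smul_eq_zero.1 h1 with h3 | h3
    · exact h3
    · exact absurd h3 h0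
  have h3 : r = 0 ∨ r = 1 := by
    have : r * (r - 1) = 0 := by rw [mul_sub, mul_one]; exact h2
    rcases mul_eq_zero.1 this with h4 | h4
    · exact Or.inl h4
    · exact Or.inr (sub_eq_zero.1 h4)
  rcases h3 with rfl | rfl
  · left
    rw [IsZero.iff_id_eq_zero]
    have : 𝟙 Y = biprod.inl ≫ a.inv ≫ (a.hom ≫ biprod.fst ≫ biprod.inl ≫ a.inv) ≫ a.hom ≫
        biprod.fst := by simp
    rw [this, hr, zero_smul]
    simp
  · right
    rw [IsZero.iff_id_eq_zero]
    have h5 : biprod.fst ≫ biprod.inl = 𝟙 (Y ⊞ Z) := by
      have := congrArg (fun t => a.inv ≫ t ≫ a.hom) hr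
      simpa using this
    have : 𝟙 Z = (biprod.inr : Z ⟶ Y ⊞ Z) ≫ (biprod.fst ≫ biprod.inl) ≫ biprod.snd := by
      rw [h5]; simp
    rw [this]
    simp


theorem ext_x [HasExt.{w} (FDRep k V)] (i : I) (x : Abelian.Ext (X k .x) (X k i) 1) : x = 0 := by
  by_cases hi : i = .x
  · subst hi
    have hx : supp I.x = fun _ => true := by funext v; cases v <;> rfl
    have : Injective (X k .x) := by
      show Injective (Th k (supp .x))
      rw [hx]
      exact inj_x
    exact Abelian.Ext.eq_zero_of_injective (n := 0) x
  · exact ext_vanish (supp_SC i) (quot_val i hi) x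

theorem X_ext [HasExt.{w} (FDRep k V)] (i j : I) (x : Abelian.Ext (X k i) (X k j) 1) :
    x = 0 := by
  cases i with
  | a => exact Abelian.Ext.eq_zero_of_projective (n := 0) x
  | b => exact Abelian.Ext.eq_zero_of_projective (n := 0) x
  | c => exact Abelian.Ext.eq_zero_of_projective (n := 0) x
  | x => exact ext_x j x

theorem X_indec (i : I) : Indecomposable (X k i) := by
  have hle : le i i = true := by revert i; decide
  apply indecomposable_of_scalar (k := k)
  · rw [← incX_id]
    exact incX_ne i i hle
  · intro f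
    obtain ⟨r, hr⟩ := X_scalar i i f
    exact ⟨r, by rw [hr, incX_id]⟩

/-- the ordering `c, a, b, x` -/
def ordering : I ≃ Fin 4 where
  toFun
    | .c => 0
    | .a => 1
    | .b => 2
    | .x => 3
  invFun
    | 0 => .c
    | 1 => .a
    | 2 => .b
    | 3 => .x
  left_inv := by intro i; cases i <;> rfl
  right_inv := by decide

theorem X_exceptional [HasExt.{w} (FDRep k V)] : IsExceptionalCollection (X k) := by
  refine ⟨fun i => ⟨X_indec i, fun x => X_ext i i x⟩, ordering, ?_⟩
  intro i j hij
  refine ⟨?_, fun x => X_ext i j x⟩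
  have : ∀ i j : I, ordering j < ordering i → le i j = false := by decide
  exact X_zero i j (this i j hij)

/-- Acyclicity: no oriented cycles. -/
theorem V_acyclic (v : V) (p : Quiver.Path v v) : p = Quiver.Path.nil := by
  let rk : V → ℕ := fun v => match v with
    | .a => 0
    | .b => 0
    | .z => 1
    | .c => 2
  have hrk : ∀ {v w : V}, (v ⟶ w) → rk v + 1 = rk w := by
    intro v w e
    induction e using arrow_ind with
    | h1 => rfl
    | h2 => rfl
    | h3 => rfl
  have hp : ∀ {v w : V} (q : Quiver.Path v w), rk v + q.length = rk w := by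
    intro v w q
    induction q with
    | nil => rfl
    | cons q e ih =>
      have h1 := hrk e
      rw [Quiver.Path.length_cons]
      omega
  have h2 := hp p
  cases p with
  | nil => rfl
  | cons q e =>
    rw [Quiver.Path.length_cons] at h2
    omega

end Quiver

/-- A finite acyclic quiver. -/
def IsFiniteAcyclic (Q : Type) [Quiver.{0} Q] : Prop :=
  Finite Q ∧ (∀ v w : Q, Finite (v ⟶ w)) ∧ ∀ (v : Q) (p : Quiver.Path v v), p = Quiver.Path.nil

/-- Over every field there are a finite acyclic quiver and an exceptional collection of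
finite-dimensional representations of it such that, for every choice of arrows of the Hom-Ext
quiver, the ideal of relations is not generated by monomial relations. -/
theorem result (k : Type u) [Field k] :
    ∃ (Q : Type) (_ : Quiver.{0} Q), IsFiniteAcyclic Q ∧
      letI : HasExt.{u + 1} (FDRep k Q) := HasExt.standard (FDRep k Q)
      ∃ (ι : Type) (_ : Fintype ι) (X : ι → FDRep k Q), IsExceptionalCollection X ∧
        Nonempty (HomExtQuiver k X) ∧ ∀ H : HomExtQuiver k X, ¬ H.GeneratedByMonomials := by
  refine ⟨V, inferInstance, ⟨inferInstance, ?_, V_acyclic⟩, ?_⟩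
  · intro v w
    have : ∀ v w : V, Finite (Arrow v w) := by
      intro v w
      have : Subsingleton (Arrow v w) := ⟨by intro e f; cases e <;> cases f <;> rfl⟩
      exact Finite.of_subsingleton
    exact this v w
  · let _ : HasExt.{u + 1} (FDRep k V) := HasExt.standard (FDRep k V)
    exact ⟨I, inferInstance, X k, X_exceptional, exists_homExtQuiver k _,
      criterion (incX k) X_scalar X_zero incX_ne incX_comp incX_id⟩

end Pool.Agent.Results.MP_2a1499_al.CommutativeSquareNotMonomial
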